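import Pool.Agent.N471.CC.Def

/-!
# Combinations of rectangles: closure properties; protocols
-/

namespace Pool.Agent.N471.CC

open Finset

variable {X Y : Type}

/-- the indicator function of a set -/
noncomputable def ind {Z : Type} (A : Set Z) (z : Z) : ℝ := A.indicator (fun _ => (1 : ℝ)) z

lemma ind_nonneg {Z : Type} (A : Set Z) (z : Z) : 0 ≤ ind A z := by
  classical
  unfold ind; rw [Set.indicator_apply]; split_ifs <;> norm_num

lemma ind_le_one {Z : Type} (A : Set Z) (z : Z) : ind A z ≤ 1 := by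
  classical
  unfold ind; rw [Set.indicator_apply]; split_ifs <;> norm_num

lemma ind_of_mem {Z : Type} {A : Set Z} {z : Z} (h : z ∈ A) : ind A z = 1 := by
  unfold ind; rw [Set.indicator_of_mem h]

lemma ind_of_notMem {Z : Type} {A : Set Z} {z : Z} (h : z ∉ A) : ind A z = 0 := by
  unfold ind; rw [Set.indicator_of_notMem h]

lemma ind_inter {Z : Type} (A B : Set Z) (z : Z) : ind (A ∩ B) z = ind A z * ind B z := by
  by_cases ha : z ∈ A <;> by_cases hb : z ∈ B
  · rw [ind_of_mem ha, ind_of_mem hb, ind_of_mem (show z ∈ A ∩ B from ⟨ha, hb⟩)]; norm_num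
  · rw [ind_of_notMem hb, ind_of_notMem (fun h => hb h.2)]; ring
  · rw [ind_of_notMem ha, ind_of_notMem (fun h => ha h.1)]; ring
  · rw [ind_of_notMem ha, ind_of_notMem (fun h => ha h.1)]; ring

/-- combinations of rectangles, nonnegative ones if `pos` holds -/
def RC (pos : Prop) (K : ℝ) (M : X → Y → ℝ) : Prop :=
  ∃ (ι : Type) (_ : Fintype ι) (c : ι → ℝ) (A : ι → Set X) (B : ι → Set Y),
    (pos → ∀ i, 0 ≤ c i) ∧ ∑ i, |c i| ≤ K ∧ ∀ x y, M x y = ∑ i, c i * (ind (A i) x * ind (B i) y)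

lemma RectComb.rc {K : ℝ} {M : X → Y → ℝ} (h : RectComb K M) : RC False K M := by
  obtain ⟨m, c, A, B, h1, h2⟩ := h
  exact ⟨Fin m, inferInstance, c, A, B, fun h => h.elim, h1, h2⟩

lemma NonnegRectComb.rc {K : ℝ} {M : X → Y → ℝ} (h : NonnegRectComb K M) : RC True K M := by
  obtain ⟨m, c, A, B, h0, h1, h2⟩ := h
  refine ⟨Fin m, inferInstance, c, A, B, fun _ => h0, ?_, h2⟩
  simpa [abs_of_nonneg (h0 _)] using h1

lemma RC.toNonneg {K : ℝ} {M : X → Y → ℝ} (h : RC True K M) : NonnegRectComb K M := by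
  obtain ⟨ι, _, c, A, B, h0, h1, h2⟩ := h
  have e : Fin (Fintype.card ι) ≃ ι := (Fintype.equivFin ι).symm
  refine ⟨Fintype.card ι, c ∘ e, A ∘ e, B ∘ e, fun i => h0 trivial _, ?_, ?_⟩
  · calc ∑ i, (c ∘ e) i = ∑ i, c i := e.sum_comp c
      _ ≤ ∑ i, |c i| := sum_le_sum fun i _ => le_abs_self _
      _ ≤ K := h1
  · intro x y
    rw [h2]
    exact (e.sum_comp (fun i => c i * (ind (A i) x * ind (B i) y))).symm

lemma RC.toRectComb {K : ℝ} {M : X → Y → ℝ} (h : RC False K M) : RectComb K M := by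
  obtain ⟨ι, _, c, A, B, h0, h1, h2⟩ := h
  have e : Fin (Fintype.card ι) ≃ ι := (Fintype.equivFin ι).symm
  refine ⟨Fintype.card ι, c ∘ e, A ∘ e, B ∘ e, ?_, ?_⟩
  · calc ∑ i, |(c ∘ e) i| = ∑ i, |c i| := e.sum_comp (fun i => |c i|)
      _ ≤ K := h1
  · intro x y
    rw [h2]
    exact (e.sum_comp (fun i => c i * (ind (A i) x * ind (B i) y))).symm

variable {pos : Prop}

lemma RC.mono {K K' : ℝ} {M : X → Y → ℝ} (h : RC pos K M) (hK : K ≤ K') : RC pos K' M := by
  obtain ⟨ι, _, c, A, B, h0, h1, h2⟩ := h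
  exact ⟨ι, inferInstance, c, A, B, h0, h1.trans hK, h2⟩

lemma RC.congr {K : ℝ} {M M' : X → Y → ℝ} (h : RC pos K M) (hM : ∀ x y, M' x y = M x y) :
    RC pos K M' := by
  obtain ⟨ι, _, c, A, B, h0, h1, h2⟩ := h
  exact ⟨ι, inferInstance, c, A, B, h0, h1, fun x y => (hM x y).trans (h2 x y)⟩

lemma RC.forget {K : ℝ} {M : X → Y → ℝ} (h : RC pos K M) : RC False K M := by
  obtain ⟨ι, _, c, A, B, h0, h1, h2⟩ := h
  exact ⟨ι, inferInstance, c, A, B, fun h => h.elim, h1, h2⟩

lemma RC.rect (A : Set X) (B : Set Y) : RC pos 1 (fun x y => ind A x * ind B y) :=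
  ⟨Unit, inferInstance, fun _ => 1, fun _ => A, fun _ => B, fun _ _ => zero_le_one, by simp,
    fun x y => by simp⟩

lemma RC.zero : RC (X := X) (Y := Y) pos 0 (fun _ _ => 0) :=
  ⟨Empty, inferInstance, fun _ => 1, fun _ => ∅, fun _ => ∅, fun _ _ => zero_le_one, by simp,
    fun x y => by simp⟩

lemma RC.one : RC (X := X) (Y := Y) pos 1 (fun _ _ => 1) :=
  (RC.rect Set.univ Set.univ).congr fun x y => by
    rw [ind_of_mem (Set.mem_univ _), ind_of_mem (Set.mem_univ _)]; norm_num

lemma RC.add {K K' : ℝ} {M M' : X → Y → ℝ} (h : RC pos K M) (h' : RC pos K' M') :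
    RC pos (K + K') (fun x y => M x y + M' x y) := by
  obtain ⟨ι, _, c, A, B, h0, h1, h2⟩ := h
  obtain ⟨ι', _, c', A', B', h0', h1', h2'⟩ := h'
  refine ⟨ι ⊕ ι', inferInstance, Sum.elim c c', Sum.elim A A', Sum.elim B B', ?_, ?_, ?_⟩
  · intro hp i
    cases i with
    | inl i => exact h0 hp i
    | inr i => exact h0' hp i
  · rw [Fintype.sum_sum_type]
    exact add_le_add h1 h1'
  · intro x y
    beta_reduce
    rw [Fintype.sum_sum_type, h2, h2']
    rfl

lemma RC.smul {K a : ℝ} {M : X → Y → ℝ} (h : RC pos K M) (ha : 0 ≤ a) :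
    RC pos (a * K) (fun x y => a * M x y) := by
  obtain ⟨ι, _, c, A, B, h0, h1, h2⟩ := h
  refine ⟨ι, inferInstance, fun i => a * c i, A, B, fun hp i => mul_nonneg ha (h0 hp i), ?_, ?_⟩
  · simp only [abs_mul, abs_of_nonneg ha, ← mul_sum]
    exact mul_le_mul_of_nonneg_left h1 ha
  · intro x y
    beta_reduce
    rw [h2, mul_sum]
    exact sum_congr rfl fun i _ => by ring

lemma RC.mul {K K' : ℝ} {M M' : X → Y → ℝ} (h : RC pos K M) (h' : RC pos K' M') (hK : 0 ≤ K) :
    RC pos (K * K') (fun x y => M x y * M' x y) := by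
  obtain ⟨ι, _, c, A, B, h0, h1, h2⟩ := h
  obtain ⟨ι', _, c', A', B', h0', h1', h2'⟩ := h'
  refine ⟨ι × ι', inferInstance, fun p => c p.1 * c' p.2, fun p => A p.1 ∩ A' p.2,
    fun p => B p.1 ∩ B' p.2, fun hp p => mul_nonneg (h0 hp _) (h0' hp _), ?_, ?_⟩
  · rw [Fintype.sum_prod_type]
    simp only [abs_mul, ← mul_sum, ← sum_mul]
    exact mul_le_mul h1 h1' (sum_nonneg fun _ _ => abs_nonneg _) hK
  · intro x y
    beta_reduce
    rw [Fintype.sum_prod_type, h2, h2', sum_mul_sum]
    refine sum_congr rfl fun i _ => sum_congr rfl fun j _ => ?_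
    rw [ind_inter, ind_inter]
    ring

lemma RC.pow {K : ℝ} {M : X → Y → ℝ} (h : RC pos K M) (hK : 0 ≤ K) (N : ℕ) :
    RC pos (K ^ N) (fun x y => M x y ^ N) := by
  induction N with
  | zero => simpa using RC.one
  | succ N ih => simpa only [pow_succ] using ih.mul h (pow_nonneg hK N)

lemma RC.sum {ι : Type} (s : Finset ι) {K : ι → ℝ} {M : ι → X → Y → ℝ}
    (h : ∀ i ∈ s, RC pos (K i) (M i)) : RC pos (∑ i ∈ s, K i) (fun x y => ∑ i ∈ s, M i x y) := by
  classical
  induction s using Finset.induction_on with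
  | empty => simpa using RC.zero
  | insert a s ha ih =>
    simp only [sum_insert ha]
    exact (h a (mem_insert_self a s)).add (ih fun i hi => h i (mem_insert_of_mem hi))

lemma RC.abs_le {K : ℝ} {M : X → Y → ℝ} (h : RC pos K M) (x : X) (y : Y) : |M x y| ≤ K := by
  obtain ⟨ι, _, c, A, B, h0, h1, h2⟩ := h
  rw [h2]
  refine (abs_sum_le_sum_abs _ _).trans (le_trans (sum_le_sum fun i _ => ?_) h1)
  rw [abs_mul, abs_of_nonneg (mul_nonneg (ind_nonneg _ _) (ind_nonneg _ _))]
  exact mul_le_of_le_one_right (abs_nonneg _)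
    (mul_le_one₀ (ind_le_one _ _) (ind_nonneg _ _) (ind_le_one _ _))

lemma RC.nonneg {K : ℝ} {M : X → Y → ℝ} (h : RC True K M) (x : X) (y : Y) : 0 ≤ M x y := by
  obtain ⟨ι, _, c, A, B, h0, h1, h2⟩ := h
  rw [h2]
  exact sum_nonneg fun i _ => mul_nonneg (h0 trivial i) (mul_nonneg (ind_nonneg _ _) (ind_nonneg _ _))

/-! ### Protocols -/

lemma Protocol.rc (p : Protocol X Y) :
    RC True ((2 : ℝ) ^ p.cost) (fun x y => if p.run x y then 1 else 0) := by
  induction p with
  | answer b =>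
    cases b
    · exact (RC.zero.mono (by positivity)).congr fun x y => by simp [Protocol.run]
    · exact (RC.one.mono (by simp [Protocol.cost])).congr fun x y => by simp [Protocol.run]
  | alice f p q hp hq =>
    have h1 := ((RC.rect (pos := True) {x : X | f x = true} (Set.univ : Set Y)).mul hp
      zero_le_one).add ((RC.rect (pos := True) {x : X | f x = false} (Set.univ : Set Y)).mul hq
      zero_le_one)
    refine (h1.mono ?_).congr fun x y => ?_
    · simp only [Protocol.cost, one_mul, pow_succ]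
      have := pow_le_pow_right₀ (one_le_two : (1 : ℝ) ≤ 2) (le_max_left p.cost q.cost)
      have := pow_le_pow_right₀ (one_le_two : (1 : ℝ) ≤ 2) (le_max_right p.cost q.cost)
      linarith
    · rw [ind_of_mem (Set.mem_univ y)]
      by_cases hx : f x = true
      · rw [ind_of_mem (show x ∈ {x : X | f x = true} from hx),
          ind_of_notMem (show x ∉ {x : X | f x = false} by simp [hx])]
        simp [Protocol.run, hx]
      · rw [ind_of_notMem (show x ∉ {x : X | f x = true} from hx),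
          ind_of_mem (show x ∈ {x : X | f x = false} by simpa using hx)]
        simp [Protocol.run, hx]
  | bob f p q hp hq =>
    have h1 := ((RC.rect (pos := True) (Set.univ : Set X) {y : Y | f y = true}).mul hp
      zero_le_one).add ((RC.rect (pos := True) (Set.univ : Set X) {y : Y | f y = false}).mul hq
      zero_le_one)
    refine (h1.mono ?_).congr fun x y => ?_
    · simp only [Protocol.cost, one_mul, pow_succ]
      have := pow_le_pow_right₀ (one_le_two : (1 : ℝ) ≤ 2) (le_max_left p.cost q.cost)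
      have := pow_le_pow_right₀ (one_le_two : (1 : ℝ) ≤ 2) (le_max_right p.cost q.cost)
      linarith
    · rw [ind_of_mem (Set.mem_univ x)]
      by_cases hy : f y = true
      · rw [ind_of_mem (show y ∈ {y : Y | f y = true} from hy),
          ind_of_notMem (show y ∉ {y : Y | f y = false} by simp [hy])]
        simp [Protocol.run, hy]
      · rw [ind_of_notMem (show y ∉ {y : Y | f y = true} from hy),
          ind_of_mem (show y ∈ {y : Y | f y = false} by simpa using hy)]
        simp [Protocol.run, hy]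

/-- A randomised protocol with `c` bits gives a nonnegative combination of rectangles of total
weight at most `(3 / 2) 2 ^ c` which separates the edges from the other pairs. -/
lemma Decides.rc {V : Type} {G : SimpleGraph V} {c : ℕ} (h : Decides G c) :
    ∃ M : V → V → ℝ, RC True (3 / 2 * 2 ^ c) M ∧ (∀ x y, G.Adj x y → 1 ≤ M x y) ∧
      ∀ x y, x ≠ y → ¬ G.Adj x y → M x y ≤ 1 / 2 := by
  obtain ⟨m, w, π, hw, hw1, hπ, h1, h2⟩ := h
  refine ⟨fun x y => 3 / 2 * ∑ i, w i * (if (π i).run x y then 1 else 0), ?_, ?_, ?_⟩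
  · have h3 : RC True (∑ i, w i * 2 ^ (π i).cost)
        (fun x y => ∑ i, w i * (if (π i).run x y then (1 : ℝ) else 0)) :=
      RC.sum univ fun i _ => ((π i).rc).smul (hw i)
    refine (h3.mono (K' := 2 ^ c) ?_).smul (by norm_num)
    calc ∑ i, w i * (2 : ℝ) ^ (π i).cost ≤ ∑ i, w i * 2 ^ c :=
          sum_le_sum fun i _ => mul_le_mul_of_nonneg_left
            (pow_le_pow_right₀ (one_le_two : (1 : ℝ) ≤ 2) (hπ i)) (hw i)
      _ = 2 ^ c := by rw [← sum_mul, hw1, one_mul]
  · intro x y hxy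
    have := h1 x y hxy
    have h3 : ∑ i, w i * (if (π i).run x y then (1 : ℝ) else 0) =
        ∑ i, if (π i).run x y then w i else 0 := sum_congr rfl fun i _ => by split_ifs <;> ring
    beta_reduce
    rw [h3]
    linarith
  · intro x y hne hxy
    have := h2 x y hne hxy
    have h3 : ∑ i, w i * (if (π i).run x y then (1 : ℝ) else 0) =
        ∑ i, if (π i).run x y then w i else 0 := sum_congr rfl fun i _ => by split_ifs <;> ring
    beta_reduce
    rw [h3]
    linarith

end Pool.Agent.N471.CC
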