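import Mathlib

/-!
# Combinations of rectangles and communication protocols: definitions
-/

namespace Pool.Agent.N471.CC

/-- `M` is a combination of rectangles `A i × B i` with real coefficients `c i` and
`∑ |c i| ≤ K`. -/
def RectComb {X Y : Type} (K : ℝ) (M : X → Y → ℝ) : Prop :=
  ∃ (m : ℕ) (c : Fin m → ℝ) (A : Fin m → Set X) (B : Fin m → Set Y),
    ∑ i, |c i| ≤ K ∧
      ∀ x y, M x y = ∑ i, c i * ((A i).indicator (fun _ => (1 : ℝ)) x *
        (B i).indicator (fun _ => (1 : ℝ)) y)

/-- `M` is a combination of rectangles `A i × B i` with nonnegative coefficients `c i` and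
`∑ c i ≤ K`. -/
def NonnegRectComb {X Y : Type} (K : ℝ) (M : X → Y → ℝ) : Prop :=
  ∃ (m : ℕ) (c : Fin m → ℝ) (A : Fin m → Set X) (B : Fin m → Set Y),
    (∀ i, 0 ≤ c i) ∧ ∑ i, c i ≤ K ∧
      ∀ x y, M x y = ∑ i, c i * ((A i).indicator (fun _ => (1 : ℝ)) x *
        (B i).indicator (fun _ => (1 : ℝ)) y)

/-- Deterministic communication protocols of two players; the first one knows `x : X`, the second
one knows `y : Y`. In the states `alice` and `bob` the named player sends one bit, which depends
on his input, and the players go on with the first or with the second protocol. -/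
inductive Protocol (X Y : Type) : Type
  | answer (b : Bool) : Protocol X Y
  | alice (f : X → Bool) (p q : Protocol X Y) : Protocol X Y
  | bob (g : Y → Bool) (p q : Protocol X Y) : Protocol X Y

/-- The answer of a protocol. -/
def Protocol.run {X Y : Type} : Protocol X Y → X → Y → Bool
  | .answer b, _, _ => b
  | .alice f p q, x, y => if f x then p.run x y else q.run x y
  | .bob g p q, x, y => if g y then p.run x y else q.run x y

/-- The largest number of bits sent by a protocol. -/
def Protocol.cost {X Y : Type} : Protocol X Y → ℕ
  | .answer _ => 0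
  | .alice _ p q => max p.cost q.cost + 1
  | .bob _ p q => max p.cost q.cost + 1

/-- The adjacency of two different vertices of `G` is decided with error probability at most `1/3`
by a randomised protocol with public coins which sends at most `c` bits: the protocol `π i` is used
with probability `w i`. -/
def Decides {V : Type} (G : SimpleGraph V) (c : ℕ) : Prop :=
  ∃ (m : ℕ) (w : Fin m → ℝ) (π : Fin m → Protocol V V),
    (∀ i, 0 ≤ w i) ∧ ∑ i, w i = 1 ∧ (∀ i, (π i).cost ≤ c) ∧
      (∀ x y, G.Adj x y → 2 / 3 ≤ ∑ i, if (π i).run x y then w i else 0) ∧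
      ∀ x y, x ≠ y → ¬ G.Adj x y → ∑ i, (if (π i).run x y then w i else 0) ≤ 1 / 3

end Pool.Agent.N471.CC
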