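import Pool.Agent.N471.CC.Pos

/-!
# From graphs to relations
-/

namespace Pool.Agent.N471.CC

open Finset

lemma noRect_of_free {V : Type} {G : SimpleGraph V} {s t : ℕ}
    (h : (completeBipartiteGraph (Fin s) (Fin t)).Free G) : NoRect G.Adj s t := by
  classical
  intro S T hS hT hall
  apply h
  have eS : Fin s ≃ S := (Fintype.equivFinOfCardEq (by simpa using hS)).symm
  have eT : Fin t ≃ T := (Fintype.equivFinOfCardEq (by simpa using hT)).symm
  have hadj : ∀ (i : Fin s) (j : Fin t), G.Adj (eS i : V) (eT j : V) := fun i j =>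
    hall _ (eS i).2 _ (eT j).2
  refine ⟨⟨⟨Sum.elim (fun i => (eS i : V)) (fun j => (eT j : V)), ?_⟩, ?_⟩⟩
  · intro a b hab
    rcases a with i | i <;> rcases b with j | j
    · simp [completeBipartiteGraph] at hab
    · exact hadj i j
    · exact (hadj j i).symm
    · simp [completeBipartiteGraph] at hab
  · intro a b hab
    rcases a with i | i <;> rcases b with j | j
    · simp only [RelHom.coeFn_mk, Sum.elim_inl] at hab
      exact congrArg Sum.inl (eS.injective (Subtype.ext hab))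
    · simp only [RelHom.coeFn_mk, Sum.elim_inl, Sum.elim_inr] at hab
      exact absurd (hab ▸ hadj i j : G.Adj (eT j : V) (eT j : V)) (G.irrefl)
    · simp only [RelHom.coeFn_mk, Sum.elim_inl, Sum.elim_inr] at hab
      exact absurd (hab ▸ hadj j i : G.Adj (eS j : V) (eS j : V)) (G.irrefl)
    · simp only [RelHom.coeFn_mk, Sum.elim_inr] at hab
      exact congrArg Sum.inr (eT.injective (Subtype.ext hab))

open Classical in
lemma two_edges_eq {V : Type} [Fintype V] (G : SimpleGraph V) :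
    2 * (G.edgeSet.ncard : ℝ) = ∑ x, ∑ y, (if G.Adj x y then (1 : ℝ) else 0) := by
  have h1 : G.edgeSet.ncard = G.edgeFinset.card := by
    rw [Set.ncard_eq_toFinset_card', SimpleGraph.edgeFinset]
  have h2 := G.sum_degrees_eq_twice_card_edges
  have h3 : ∀ x, ∑ y, (if G.Adj x y then (1 : ℝ) else 0) = (G.degree x : ℝ) := by
    intro x
    rw [← sum_filter, sum_const, nsmul_eq_mul, mul_one, ← G.card_neighborFinset_eq_degree,
      G.neighborFinset_eq_filter]
  simp only [h3, h1]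
  have h4 : ((∑ v, G.degree v : ℕ) : ℝ) = ((2 * G.edgeFinset.card : ℕ) : ℝ) := by
    rw [h2]
  push_cast at h4
  exact h4.symm

lemma cnt_diag {V : Type} (G : SimpleGraph V) (A B : Finset V) :
    cnt (fun x y => G.Adj x y ∨ x = y) A B ≤ cnt G.Adj A B + B.card := by
  classical
  have h1 : (B.card : ℝ) = ∑ y ∈ B, (1 : ℝ) := by simp
  have h2 : ∑ x ∈ A, ∑ y ∈ B, (if x = y then (1 : ℝ) else 0) ≤ B.card := by
    rw [h1, sum_comm]
    refine sum_le_sum fun y _ => ?_
    rw [sum_ite_eq']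
    split_ifs <;> norm_num
  calc cnt (fun x y => G.Adj x y ∨ x = y) A B
      ≤ ∑ x ∈ A, ∑ y ∈ B, ((if G.Adj x y then (1 : ℝ) else 0) + (if x = y then (1 : ℝ) else 0)) := by
        unfold cnt
        refine sum_le_sum fun x _ => sum_le_sum fun y _ => ?_
        by_cases h3 : G.Adj x y <;> by_cases h4 : x = y <;> simp [h3, h4]
    _ = cnt G.Adj A B + ∑ x ∈ A, ∑ y ∈ B, (if x = y then (1 : ℝ) else 0) := by
        simp only [sum_add_distrib]
        congr 1
    _ ≤ _ := by linarith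

/-- Nonnegative combinations of rectangles. -/
theorem nonneg_bound (K ε : ℝ) (hK : 1 ≤ K) (hε : 0 < ε) :
    ∃ C : ℝ, 1 ≤ C ∧ ∀ (r : ℕ) (V : Type) [Fintype V] (G : SimpleGraph V) (M : V → V → ℝ),
      (completeBipartiteGraph (Fin r) (Fin r)).Free G → RC True K M →
      (∀ x y, G.Adj x y → 1 ≤ M x y) → (∀ x y, x ≠ y → ¬ G.Adj x y → M x y ≤ 1 / 2) →
      (G.edgeSet.ncard : ℝ) ≤
        C ^ r * (Fintype.card V : ℝ) ^ (2 - 1 / Real.logb 2 (2 * K) + ε) := by
  classical
  have hK0 : 0 < K := by linarith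
  set k : ℝ := Real.logb 2 K with hk
  have hk0 : 0 ≤ k := Real.logb_nonneg (by norm_num) hK
  have hlog : Real.logb 2 (2 * K) = 1 + k := by
    rw [Real.logb_mul (by norm_num) hK0.ne', Real.logb_self_eq_one (by norm_num)]
  have hKk : K = (2 : ℝ) ^ k := (Real.rpow_logb (by norm_num) (by norm_num) hK0).symm
  set σ : ℝ := 1 - 1 / (1 + k) + ε with hσ
  have hexp : 2 - 1 / Real.logb 2 (2 * K) + ε = 1 + σ := by rw [hlog, hσ]; ring
  have hedge : ∀ (V : Type) [Fintype V] (G : SimpleGraph V),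
      (G.edgeSet.ncard : ℝ) ≤ cnt G.Adj univ univ := by
    intro V _ G
    have h1 := two_edges_eq G
    have h2 : cnt G.Adj univ univ = ∑ x, ∑ y, (if G.Adj x y then (1 : ℝ) else 0) := by
      unfold cnt
      refine sum_congr rfl fun x _ => sum_congr rfl fun y _ => ?_
      congr
    rw [h2, ← h1]
    have : (0 : ℝ) ≤ (G.edgeSet.ncard : ℝ) := Nat.cast_nonneg _
    linarith
  have hempty : ∀ (V : Type) [Fintype V] (G : SimpleGraph V), Fintype.card V = 0 →
      (G.edgeSet.ncard : ℝ) ≤ 0 := by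
    intro V _ G hV
    have h1 := (hedge V G).trans (cnt_le G.Adj univ univ)
    simpa [hV] using h1
  rcases le_or_gt 1 σ with hσ1 | hσ1
  · refine ⟨1, le_refl _, fun r V _ G M hfree hM h1 h2 => ?_⟩
    rw [one_pow, one_mul, hexp]
    rcases Nat.eq_zero_or_pos (Fintype.card V) with hn | hn
    · exact (hempty V G hn).trans (by positivity)
    · have hn1 : (1 : ℝ) ≤ Fintype.card V := by exact_mod_cast hn
      calc (G.edgeSet.ncard : ℝ) ≤ cnt G.Adj univ univ := hedge V G
        _ ≤ (Fintype.card V : ℝ) * Fintype.card V := by simpa using cnt_le G.Adj univ univ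
        _ = (Fintype.card V : ℝ) ^ (2 : ℝ) := by
          rw [← sq]; exact (Real.rpow_natCast _ 2).symm
        _ ≤ (Fintype.card V : ℝ) ^ (1 + σ) := Real.rpow_le_rpow_of_exponent_le hn1 (by linarith)
  -- the main case
  have hσ0 : 0 < σ := by
    have h1 : 1 / (1 + k) ≤ 1 := by
      rw [div_le_one (by linarith)]; linarith
    rw [hσ]; linarith
  set q : ℝ := (1 / 2) ^ σ * K ^ (1 - σ) with hq
  have hq0 : 0 ≤ q := by positivity
  have hq1 : q < 1 := by
    have h1 : q = (2 : ℝ) ^ (k * (1 - σ) - σ) := by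
      rw [hq, hKk, ← Real.rpow_mul (by norm_num), one_div, Real.inv_rpow (by norm_num),
        ← Real.rpow_neg (by norm_num), ← Real.rpow_add (by norm_num)]
      congr 1
      ring
    rw [h1]
    refine Real.rpow_lt_one_of_one_lt_of_neg (by norm_num) ?_
    have h2 : (1 + k) * (1 / (1 + k)) = 1 := by field_simp
    have h3 : k * (1 - σ) - σ = - ((1 + k) * ε) := by
      rw [hσ]
      linear_combination h2
    rw [h3]
    have : 0 < (1 + k) * ε := by positivity
    linarith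
  obtain ⟨N0, hN0⟩ := exists_pow_lt_of_lt_one (show (0 : ℝ) < 1 / 4 by norm_num) hq1
  set N : ℕ := N0 + 3 with hN
  set κ : ℝ := (1 / 2) ^ N with hκ
  have hκ0 : 0 < κ := by positivity
  have hκ8 : κ ≤ 1 / 8 := by
    rw [hκ, hN, pow_add]
    have : ((1 : ℝ) / 2) ^ N0 ≤ 1 := pow_le_one₀ (by norm_num) (by norm_num)
    norm_num
    linarith
  have hKN : 1 ≤ K ^ N := one_le_pow₀ hK
  have hcond : (4 * κ) ^ σ * (4 * K ^ N) ^ (1 - σ) ≤ 1 := by
    have h1 : (4 * κ) ^ σ * (4 * K ^ N) ^ (1 - σ) = 4 * q ^ N := by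
      rw [Real.mul_rpow (by norm_num) hκ0.le, Real.mul_rpow (by norm_num) (by positivity), hq,
        mul_pow, hκ]
      have h2 : (((1 : ℝ) / 2) ^ N) ^ σ = (((1 : ℝ) / 2) ^ σ) ^ N := by
        rw [← Real.rpow_natCast, ← Real.rpow_natCast, ← Real.rpow_mul (by norm_num),
          ← Real.rpow_mul (by norm_num), mul_comm]
      have h3 : (K ^ N) ^ (1 - σ) = (K ^ (1 - σ)) ^ N := by
        rw [← Real.rpow_natCast, ← Real.rpow_natCast, ← Real.rpow_mul hK0.le,
          ← Real.rpow_mul hK0.le, mul_comm]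
      rw [h2, h3]
      have h4 : (4 : ℝ) ^ σ * 4 ^ (1 - σ) = 4 := by
        rw [← Real.rpow_add (by norm_num)]; simp
      linear_combination ((((1 : ℝ) / 2) ^ σ) ^ N * (K ^ (1 - σ)) ^ N) * h4
    rw [h1]
    have h5 : q ^ N ≤ q ^ N0 := pow_le_pow_of_le_one hq0 hq1.le (by omega)
    linarith
  have hQ : 8 ≤ K ^ N / κ := by
    rw [le_div_iff₀ hκ0]; linarith
  refine ⟨24 * (K ^ N / κ), by linarith, fun r V _ G M hfree hM h1 h2 => ?_⟩
  rw [hexp]
  rcases Nat.eq_zero_or_pos (Fintype.card V) with hn | hn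
  · exact (hempty V G hn).trans (by positivity)
  have hn0 : (0 : ℝ) < Fintype.card V := by exact_mod_cast hn
  have hnr := noRect_of_free hfree
  rcases Nat.eq_zero_or_pos r with hr | hr
  · exact absurd (fun x hx => absurd hx (notMem_empty x)) (hnr ∅ ∅ (by simp [hr]) (by simp [hr]))
  set Q : ℝ := K ^ N / κ with hQdef
  have hQ0 : 0 < Q := by linarith
  have hL : 4 * r * K ^ N / κ + r * (4 * K ^ N / κ) ^ r + 2 * K ^ N / κ ≤ (24 * Q) ^ r := by
    have e1 : 4 * r * K ^ N / κ = r * (4 * Q) := by rw [hQdef]; ring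
    have e2 : 4 * K ^ N / κ = 4 * Q := by rw [hQdef]; ring
    have e3 : 2 * K ^ N / κ = 2 * Q := by rw [hQdef]; ring
    rw [e1, e2, e3]
    have hr1 : (1 : ℝ) ≤ r := by exact_mod_cast hr
    have h4 : 4 * Q ≤ (4 * Q) ^ r := le_self_pow₀ (by linarith) (by omega)
    have h5 : (r : ℝ) ≤ 2 ^ r := by exact_mod_cast Nat.lt_two_pow_self.le
    have h6 : (3 : ℝ) ≤ 3 ^ r := le_self_pow₀ (by norm_num) (by omega)
    have h7 : (24 * Q) ^ r = 3 ^ r * (2 ^ r * (4 * Q) ^ r) := by
      rw [← mul_pow, ← mul_pow]; ring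
    have h8 : (0 : ℝ) < (4 * Q) ^ r := by positivity
    calc r * (4 * Q) + r * (4 * Q) ^ r + 2 * Q
        ≤ r * (4 * Q) ^ r + r * (4 * Q) ^ r + r * (4 * Q) ^ r := by
          have h9 : (r : ℝ) * (4 * Q) ≤ r * (4 * Q) ^ r := mul_le_mul_of_nonneg_left h4 (by linarith)
          have h10 : 2 * Q ≤ r * (4 * Q) ^ r := by
            calc 2 * Q ≤ 1 * (4 * Q) := by linarith
              _ ≤ r * (4 * Q) ^ r := mul_le_mul hr1 h4 (by linarith) (by linarith)
          linarith
      _ = 3 * (r * (4 * Q) ^ r) := by ring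
      _ ≤ 3 ^ r * (2 ^ r * (4 * Q) ^ r) := by gcongr
      _ = _ := h7.symm
  have hmain := pos_recursion (E := G.Adj) (D := fun x y => G.Adj x y ∨ x = y) hnr hr hr
    (W := fun x y => M x y ^ N) (K := K ^ N) (κ := κ) hKN hκ0 hκ8 (hM.pow hK0.le N)
    (fun x y hxy => one_le_pow₀ (h1 x y hxy))
    (fun x y hxy => by
      push Not at hxy
      exact pow_le_pow_left₀ (hM.nonneg x y) (h2 x y hxy.2 hxy.1) N)
    (fun A B => cnt_diag G A B) hσ0 hσ1.le hcond hn0 hL univ univ (by simp) (by simp)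
  refine (hedge V G).trans (hmain.trans ?_)
  have hCr : 1 ≤ (24 * Q) ^ r := one_le_pow₀ (by linarith)
  simp only [card_univ]
  calc ((24 * Q) ^ r * (Fintype.card V : ℝ)) ^ (1 - σ) *
        ((Fintype.card V : ℝ) * (Fintype.card V : ℝ)) ^ σ
      = ((24 * Q) ^ r) ^ (1 - σ) * (Fintype.card V : ℝ) ^ (1 + σ) := by
        rw [Real.mul_rpow (by positivity) hn0.le, Real.mul_rpow hn0.le hn0.le, mul_assoc,
          ← Real.rpow_add hn0, ← Real.rpow_add hn0]
        congr 2
        ring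
    _ ≤ (24 * Q) ^ r * (Fintype.card V : ℝ) ^ (1 + σ) := by
        have : ((24 * Q) ^ r) ^ (1 - σ) ≤ (24 * Q) ^ r := by
          calc ((24 * Q) ^ r) ^ (1 - σ) ≤ ((24 * Q) ^ r) ^ (1 : ℝ) :=
                Real.rpow_le_rpow_of_exponent_le hCr (by linarith)
            _ = _ := Real.rpow_one _
        gcongr

end Pool.Agent.N471.CC
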