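import Pool.Agent.N471.CC.Basic

/-!
# The theorem of Kővári, Sós and Turán for the classes of a colouring
-/

namespace Pool.Agent.N471.CC

open Finset

variable {X Y : Type}

/-- `E` contains no complete `s × t` rectangle -/
def NoRect (E : X → Y → Prop) (s t : ℕ) : Prop :=
  ∀ (S : Finset X) (T : Finset Y), S.card = s → T.card = t → ¬ ∀ x ∈ S, ∀ y ∈ T, E x y

open Classical in
/-- degree into `A` -/
noncomputable def dg (E : X → Y → Prop) (A : Finset X) (y : Y) : ℕ :=
  (A.filter (fun x => E x y)).card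

lemma kst_core {E : X → Y → Prop} {s t : ℕ} (h : NoRect E s t) (A : Finset X)
    (B : Finset Y) : ∑ y ∈ B, (dg E A y + 1 - s) ^ s ≤ (t - 1) * A.card ^ s := by
  classical
  have h1 : ∀ y ∈ B, (dg E A y + 1 - s) ^ s ≤
      s.factorial * (powersetCard s (A.filter (fun x => E x y))).card := by
    intro y _
    rw [card_powersetCard, ← Nat.descFactorial_eq_factorial_mul_choose]
    refine (Nat.pow_sub_le_descFactorial _ _).trans (le_of_eq ?_)
    unfold dg
    congr!
  have h2 : ∑ y ∈ B, (powersetCard s (A.filter (fun x => E x y))).card =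
      ∑ S ∈ powersetCard s A, (B.filter (fun y => ∀ x ∈ S, E x y)).card := by
    have h3 : ∀ y, powersetCard s (A.filter (fun x => E x y)) =
        (powersetCard s A).filter (fun S => ∀ x ∈ S, E x y) := by
      intro y
      ext S
      simp only [mem_powersetCard, mem_filter, subset_iff]
      constructor
      · rintro ⟨ha, hb⟩
        exact ⟨⟨fun x hx => (ha hx).1, hb⟩, fun x hx => (ha hx).2⟩
      · rintro ⟨⟨ha, hb⟩, hc⟩
        exact ⟨fun x hx => ⟨ha hx, hc x hx⟩, hb⟩
    simp_rw [h3, card_filter]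
    exact sum_comm
  have h4 : ∀ S ∈ powersetCard s A, (B.filter (fun y => ∀ x ∈ S, E x y)).card ≤ t - 1 := by
    intro S hS
    by_contra hlt
    push Not at hlt
    obtain ⟨T, hT, hTc⟩ := exists_subset_card_eq (show t ≤ (B.filter (fun y => ∀ x ∈ S, E x y)).card
      by omega)
    refine h S T (mem_powersetCard.mp hS).2 hTc fun x hx y hy => ?_
    exact (mem_filter.mp (hT hy)).2 x hx
  calc ∑ y ∈ B, (dg E A y + 1 - s) ^ s
      ≤ ∑ y ∈ B, s.factorial * (powersetCard s (A.filter (fun x => E x y))).card := sum_le_sum h1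
    _ = s.factorial * ∑ S ∈ powersetCard s A, (B.filter (fun y => ∀ x ∈ S, E x y)).card := by
        rw [← mul_sum, h2]
    _ ≤ s.factorial * ∑ S ∈ powersetCard s A, (t - 1) :=
        Nat.mul_le_mul_left _ (sum_le_sum h4)
    _ = (t - 1) * (s.factorial * A.card.choose s) := by
        rw [sum_const, card_powersetCard, smul_eq_mul]; ring
    _ = (t - 1) * A.card.descFactorial s := by rw [← Nat.descFactorial_eq_factorial_mul_choose]
    _ ≤ (t - 1) * A.card ^ s := Nat.mul_le_mul_left _ (Nat.descFactorial_le_pow _ _)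

lemma sq_le_aux {w b : ℝ} (hw : 0 ≤ w) (hb : 0 < b) {s : ℕ} (hs : 2 ≤ s) :
    w ^ 2 ≤ b ^ 2 + w ^ s * (1 / b) ^ (s - 2) := by
  rcases le_total w b with h | h
  · have : w ^ 2 ≤ b ^ 2 := pow_le_pow_left₀ hw h 2
    have : 0 ≤ w ^ s * (1 / b) ^ (s - 2) := by positivity
    linarith
  · have h1 : w ^ s * (1 / b) ^ (s - 2) = w ^ 2 * (w / b) ^ (s - 2) := by
      obtain ⟨k, rfl⟩ := Nat.exists_eq_add_of_le hs
      rw [Nat.add_sub_cancel_left, pow_add, div_pow, div_pow]
      ring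
    have h2 : 1 ≤ (w / b) ^ (s - 2) := one_le_pow₀ ((one_le_div hb).mpr h)
    have h3 : w ^ 2 ≤ w ^ 2 * (w / b) ^ (s - 2) := le_mul_of_one_le_right (sq_nonneg w) h2
    have : 0 ≤ b ^ 2 := sq_nonneg b
    linarith

/-- Weighted form of the theorem of Kővári, Sós and Turán: the weights are constant on the classes
of the colouring `κ` of the first coordinate. -/
lemma kst_weighted [Fintype X] [Fintype Y] {ι : Type} [Fintype ι] [DecidableEq ι]
    {E : X → Y → Prop} [∀ x y, Decidable (E x y)] {s t n : ℕ} (h : NoRect E s t) (hs : 2 ≤ s)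
    (ht : 1 ≤ t) (hn : 1 ≤ n) (hX : Fintype.card X ≤ n) (hY : Fintype.card Y ≤ n) (κ : X → ι)
    (g : ι → Y → ℝ) {G : ℝ} (hG : 0 ≤ G) (hg : ∀ i y, |g i y| ≤ G) :
    ∑ x, ∑ y, (if E x y then g (κ x) y else 0) ≤
      √(∑ x, ∑ y, g (κ x) y ^ 2) * √(t * (n : ℝ) ^ (2 - 2 / (s : ℝ))) +
        (s - 1) * Fintype.card ι * n * G := by
  classical
  set F : ι → Finset X := fun i => univ.filter (fun x => κ x = i) with hF
  set a : ι → ℝ := fun i => ((F i).card : ℝ) with ha
  set d : ι → Y → ℕ := fun i y => dg E (F i) y with hd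
  set d' : ι → Y → ℕ := fun i y => dg E (F i) y + 1 - s with hd'
  have hn0 : (0 : ℝ) < n := by exact_mod_cast hn
  have hn1 : (1 : ℝ) ≤ n := by exact_mod_cast hn
  -- fibrewise sums
  have hfib : ∀ f : X → ℝ, ∑ x, f x = ∑ i, ∑ x ∈ F i, f x := fun f =>
    (sum_fiberwise univ κ f).symm
  have h1 : ∑ x, ∑ y, (if E x y then g (κ x) y else 0) = ∑ i, ∑ y, (d i y : ℝ) * g i y := by
    rw [hfib]
    refine sum_congr rfl fun i _ => ?_
    rw [sum_comm]
    refine sum_congr rfl fun y _ => ?_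
    have : ∀ x ∈ F i, (if E x y then g (κ x) y else 0) = if E x y then g i y else 0 := by
      intro x hx
      rw [(mem_filter.mp hx).2]
    rw [sum_congr rfl this, ← sum_filter, sum_const, nsmul_eq_mul]
    congr 2
    simp only [hd, dg]
    congr!
  have h2 : ∑ x, ∑ y, g (κ x) y ^ 2 = ∑ i, ∑ y, a i * g i y ^ 2 := by
    rw [hfib]
    refine sum_congr rfl fun i _ => ?_
    rw [sum_comm]
    refine sum_congr rfl fun y _ => ?_
    have : ∀ x ∈ F i, g (κ x) y ^ 2 = g i y ^ 2 := by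
      intro x hx
      rw [(mem_filter.mp hx).2]
    rw [sum_congr rfl this, sum_const, nsmul_eq_mul]
  have hsuma : ∑ i, a i ≤ n := by
    have : ∑ i, a i = (Fintype.card X : ℝ) := by
      have h3 := hfib (fun _ => 1)
      simp only [sum_const, nsmul_eq_mul, mul_one, card_univ] at h3
      rw [h3]
    rw [this]
    exact_mod_cast hX
  have ha0 : ∀ i, 0 ≤ a i := fun i => Nat.cast_nonneg _
  have hd0 : ∀ i y, a i = 0 → d' i y = 0 := by
    intro i y hai
    have h3 : (F i).card = 0 := by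
      simp only [ha] at hai
      exact_mod_cast hai
    have h4 : dg E (F i) y = 0 := by
      unfold dg
      rw [card_eq_zero.mp h3]
      simp
    simp only [hd', h4]
    omega
  -- the main term
  have h5 : ∑ i, ∑ y, (d' i y : ℝ) * |g i y| ≤ √(∑ i, ∑ y, a i * g i y ^ 2) *
      √(∑ i, ∑ y, (d' i y : ℝ) ^ 2 / a i) := by
    have h6 := Real.sum_mul_le_sqrt_mul_sqrt (univ : Finset (ι × Y))
      (fun p => √(a p.1) * |g p.1 p.2|) (fun p => (d' p.1 p.2 : ℝ) / √(a p.1))
    simp only [Fintype.sum_prod_type] at h6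
    have h7 : ∀ i y, √(a i) * |g i y| * ((d' i y : ℝ) / √(a i)) = (d' i y : ℝ) * |g i y| := by
      intro i y
      rcases eq_or_lt_of_le (ha0 i) with h0 | h0
      · rw [hd0 i y h0.symm]; simp
      · have : √(a i) ≠ 0 := (Real.sqrt_pos.mpr h0).ne'
        field_simp
    have h8 : ∀ i y, (√(a i) * |g i y|) ^ 2 = a i * g i y ^ 2 := by
      intro i y
      rw [mul_pow, Real.sq_sqrt (ha0 i), sq_abs]
    have h9 : ∀ i y, ((d' i y : ℝ) / √(a i)) ^ 2 = (d' i y : ℝ) ^ 2 / a i := by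
      intro i y
      rw [div_pow, Real.sq_sqrt (ha0 i)]
    simp only [h7, h8, h9] at h6
    exact h6
  -- the second moment
  set b : ℝ := (n : ℝ) ^ (-(1 / (s : ℝ))) with hb
  have hb0 : 0 < b := Real.rpow_pos_of_pos hn0 _
  have hs0 : (0 : ℝ) < s := by positivity
  have hb2 : b ^ 2 * (n : ℝ) ^ 2 = (n : ℝ) ^ (2 - 2 / (s : ℝ)) := by
    rw [hb, ← Real.rpow_natCast, ← Real.rpow_mul hn0.le, ← Real.rpow_natCast (n : ℝ) 2,
      ← Real.rpow_add hn0]
    congr 1
    push_cast
    ring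
  have hβ : (1 / b) ^ (s - 2) * (n : ℝ) = (n : ℝ) ^ (2 - 2 / (s : ℝ)) := by
    rw [hb, one_div, ← Real.rpow_neg hn0.le, neg_neg, ← Real.rpow_natCast, ← Real.rpow_mul hn0.le]
    nth_rewrite 2 [← Real.rpow_one (n : ℝ)]
    rw [← Real.rpow_add hn0, Nat.cast_sub hs]
    congr 1
    field_simp
    push_cast
    ring
  have h10 : ∀ i, ∑ y, (d' i y : ℝ) ^ 2 / a i ≤
      a i * (b ^ 2 * n) + (1 / b) ^ (s - 2) * ((t - 1) * a i) := by
    intro i
    rcases eq_or_lt_of_le (ha0 i) with h0 | h0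
    · rw [← h0]; simp
    · have h11 : ∀ y, (d' i y : ℝ) ^ 2 / a i ≤
          a i * b ^ 2 + (1 / b) ^ (s - 2) * ((d' i y : ℝ) ^ s / a i ^ (s - 1)) := by
        intro y
        have h12 := sq_le_aux (w := (d' i y : ℝ) / a i) (b := b) (by positivity) hb0 hs
        have h13 : (d' i y : ℝ) ^ 2 / a i = a i * ((d' i y : ℝ) / a i) ^ 2 := by
          field_simp
        have h14 : (d' i y : ℝ) ^ s / a i ^ (s - 1) = a i * ((d' i y : ℝ) / a i) ^ s := by
          obtain ⟨k, rfl⟩ := Nat.exists_eq_add_of_le hs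
          rw [show 2 + k - 1 = k + 1 by omega, div_pow]
          field_simp
          ring
        rw [h13, h14]
        calc a i * ((d' i y : ℝ) / a i) ^ 2
            ≤ a i * (b ^ 2 + ((d' i y : ℝ) / a i) ^ s * (1 / b) ^ (s - 2)) :=
              mul_le_mul_of_nonneg_left h12 h0.le
          _ = _ := by ring
      have h15 : ∑ y, (d' i y : ℝ) ^ s ≤ (t - 1) * a i ^ s := by
        have h16 := kst_core h (F i) (univ : Finset Y)
        have h17 : ((∑ y, (dg E (F i) y + 1 - s) ^ s : ℕ) : ℝ) ≤ (((t - 1) * (F i).card ^ s : ℕ) : ℝ) :=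
          by exact_mod_cast h16
        rw [Nat.cast_mul, Nat.cast_sub ht] at h17
        push_cast at h17
        simpa [hd', ha] using h17
      calc ∑ y, (d' i y : ℝ) ^ 2 / a i
          ≤ ∑ y, (a i * b ^ 2 + (1 / b) ^ (s - 2) * ((d' i y : ℝ) ^ s / a i ^ (s - 1))) :=
            sum_le_sum fun y _ => h11 y
        _ = Fintype.card Y * (a i * b ^ 2) +
            (1 / b) ^ (s - 2) * ((∑ y, (d' i y : ℝ) ^ s) / a i ^ (s - 1)) := by
            rw [sum_add_distrib, sum_const, card_univ, nsmul_eq_mul, ← mul_sum, sum_div]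
        _ ≤ n * (a i * b ^ 2) + (1 / b) ^ (s - 2) * (((t - 1) * a i ^ s) / a i ^ (s - 1)) := by
            have : (Fintype.card Y : ℝ) ≤ n := by exact_mod_cast hY
            gcongr
        _ = a i * (b ^ 2 * n) + (1 / b) ^ (s - 2) * ((t - 1) * a i) := by
            have : ((t - 1) * a i ^ s) / a i ^ (s - 1) = ((t : ℝ) - 1) * a i := by
              obtain ⟨k, rfl⟩ := Nat.exists_eq_add_of_le hs
              rw [show 2 + k - 1 = k + 1 by omega]
              field_simp
              ring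
            rw [this]
            ring
  have h18 : ∑ i, ∑ y, (d' i y : ℝ) ^ 2 / a i ≤ t * (n : ℝ) ^ (2 - 2 / (s : ℝ)) := by
    have ht1 : (0 : ℝ) ≤ (t : ℝ) - 1 := by
      have : (1 : ℝ) ≤ t := by exact_mod_cast ht
      linarith
    calc ∑ i, ∑ y, (d' i y : ℝ) ^ 2 / a i
        ≤ ∑ i, (a i * (b ^ 2 * n) + (1 / b) ^ (s - 2) * ((t - 1) * a i)) :=
          sum_le_sum fun i _ => h10 i
      _ = (b ^ 2 * n + (1 / b) ^ (s - 2) * (t - 1)) * ∑ i, a i := by
          rw [mul_sum]; exact sum_congr rfl fun i _ => by ring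
      _ ≤ (b ^ 2 * n + (1 / b) ^ (s - 2) * (t - 1)) * n := by
          refine mul_le_mul_of_nonneg_left hsuma ?_
          positivity
      _ = b ^ 2 * (n : ℝ) ^ 2 + (t - 1) * ((1 / b) ^ (s - 2) * n) := by ring
      _ = t * (n : ℝ) ^ (2 - 2 / (s : ℝ)) := by rw [hb2, hβ]; ring
  -- conclusion
  rw [h1, h2]
  have h19 : ∀ i y, (d i y : ℝ) * g i y ≤ (d' i y : ℝ) * |g i y| + (s - 1) * G := by
    intro i y
    have h20 : d i y ≤ d' i y + (s - 1) := by
      show dg E (F i) y ≤ dg E (F i) y + 1 - s + (s - 1)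
      omega
    have h21 : (d i y : ℝ) ≤ d' i y + (s - 1) := by
      have h22 : (d i y : ℝ) ≤ ((d' i y + (s - 1) : ℕ) : ℝ) := Nat.cast_le.mpr h20
      rw [Nat.cast_add, Nat.cast_sub (by omega : 1 ≤ s), Nat.cast_one] at h22
      exact h22
    have hs1 : (0 : ℝ) ≤ (s : ℝ) - 1 := by
      have : (2 : ℝ) ≤ s := by exact_mod_cast hs
      linarith
    calc (d i y : ℝ) * g i y ≤ (d i y : ℝ) * |g i y| :=
          mul_le_mul_of_nonneg_left (le_abs_self _) (Nat.cast_nonneg _)
      _ ≤ (d' i y + (s - 1)) * |g i y| := mul_le_mul_of_nonneg_right h21 (abs_nonneg _)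
      _ = (d' i y : ℝ) * |g i y| + (s - 1) * |g i y| := by ring
      _ ≤ _ := by
          have := mul_le_mul_of_nonneg_left (hg i y) hs1
          linarith
  calc ∑ i, ∑ y, (d i y : ℝ) * g i y
      ≤ ∑ i, ∑ y, ((d' i y : ℝ) * |g i y| + (s - 1) * G) :=
        sum_le_sum fun i _ => sum_le_sum fun y _ => h19 i y
    _ = ∑ i, ∑ y, (d' i y : ℝ) * |g i y| + Fintype.card ι * (Fintype.card Y * ((s - 1) * G)) := by
        simp only [sum_add_distrib, sum_const, card_univ, nsmul_eq_mul]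
    _ ≤ √(∑ i, ∑ y, a i * g i y ^ 2) * √(t * (n : ℝ) ^ (2 - 2 / (s : ℝ))) +
        (s - 1) * Fintype.card ι * n * G := by
        refine add_le_add (h5.trans (mul_le_mul_of_nonneg_left (Real.sqrt_le_sqrt h18)
          (Real.sqrt_nonneg _))) ?_
        have hs1 : (0 : ℝ) ≤ (s : ℝ) - 1 := by
          have : (2 : ℝ) ≤ s := by exact_mod_cast hs
          linarith
        have hYn : (Fintype.card Y : ℝ) ≤ n := by exact_mod_cast hY
        calc (Fintype.card ι : ℝ) * (Fintype.card Y * ((s - 1) * G))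
            ≤ Fintype.card ι * (n * ((s - 1) * G)) := by gcongr
          _ = _ := by ring

end Pool.Agent.N471.CC
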