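import Pool.Agent.N471.CC.KST

/-!
# Nonnegative combinations of rectangles: density increments
-/

namespace Pool.Agent.N471.CC

open Finset

variable {X Y : Type}

open Classical in
/-- the number of the pairs of `E` in `A × B` -/
noncomputable def cnt (E : X → Y → Prop) (A : Finset X) (B : Finset Y) : ℝ :=
  ∑ x ∈ A, ∑ y ∈ B, if E x y then 1 else 0

lemma cnt_nonneg (E : X → Y → Prop) (A : Finset X) (B : Finset Y) : 0 ≤ cnt E A B :=
  sum_nonneg fun x _ => sum_nonneg fun y _ => by split_ifs <;> norm_num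

lemma cnt_le (E : X → Y → Prop) (A : Finset X) (B : Finset Y) :
    cnt E A B ≤ A.card * B.card := by
  calc cnt E A B ≤ ∑ x ∈ A, ∑ y ∈ B, (1 : ℝ) :=
        sum_le_sum fun x _ => sum_le_sum fun y _ => by split_ifs <;> norm_num
    _ = _ := by simp

lemma cnt_eq_dg (E : X → Y → Prop) (A : Finset X) (B : Finset Y) :
    cnt E A B = ∑ y ∈ B, (dg E A y : ℝ) := by
  classical
  unfold cnt
  rw [sum_comm]
  refine sum_congr rfl fun y _ => ?_
  rw [← sum_filter, sum_const, nsmul_eq_mul, mul_one]
  simp only [dg]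

/-- The theorem of Kővári, Sós and Turán for dense relations. -/
lemma thin_of_dense {E : X → Y → Prop} {s t : ℕ} (h : NoRect E s t) (hs : 1 ≤ s) (ht : 1 ≤ t)
    {d : ℝ} (hd : 0 < d) (A : Finset X) (B : Finset Y) (hAB : d * (A.card * B.card) < cnt E A B) :
    (A.card : ℝ) ≤ 2 * s / d ∨ (B.card : ℝ) ≤ t * (2 / d) ^ s := by
  classical
  by_contra hno
  push Not at hno
  obtain ⟨h1, h2⟩ := hno
  set a : ℝ := (A.card : ℝ) with ha
  set b : ℝ := (B.card : ℝ) with hb
  have hs0 : (0 : ℝ) < s := by exact_mod_cast hs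
  have ha0 : 0 < a := lt_of_le_of_lt (by positivity) h1
  have hb0 : 0 < b := lt_of_le_of_lt (by positivity) h2
  have h3 : (s : ℝ) < a * d / 2 := by
    rw [div_lt_iff₀ hd] at h1
    linarith
  have h4 := kst_core h A B
  have h5 : ∑ y ∈ B, ((dg E A y + 1 - s : ℕ) : ℝ) ^ s ≤ t * a ^ s := by
    have h6 : ((∑ y ∈ B, (dg E A y + 1 - s) ^ s : ℕ) : ℝ) ≤ ((t * A.card ^ s : ℕ) : ℝ) :=
      Nat.cast_le.mpr (h4.trans (Nat.mul_le_mul_right _ (Nat.sub_le _ _)))
    push_cast at h6
    exact h6
  obtain ⟨k, rfl⟩ := Nat.exists_eq_add_of_le hs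
  have h7 := pow_sum_div_card_le_sum_pow (s := B) (f := fun y => ((dg E A y + 1 - (1 + k) : ℕ) : ℝ))
    (fun _ _ => Nat.cast_nonneg _) k
  have h8 : d * a * b / 2 ≤ ∑ y ∈ B, ((dg E A y + 1 - (1 + k) : ℕ) : ℝ) := by
    have h9 : ∀ y ∈ B, (dg E A y : ℝ) - a * d / 2 ≤ ((dg E A y + 1 - (1 + k) : ℕ) : ℝ) := by
      intro y _
      have h10 : dg E A y ≤ (dg E A y + 1 - (1 + k)) + (1 + k) := by omega
      have h11 : (dg E A y : ℝ) ≤ ((dg E A y + 1 - (1 + k) : ℕ) : ℝ) + ((1 + k : ℕ) : ℝ) := by
        exact_mod_cast h10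
      linarith
    have h12 := sum_le_sum h9
    rw [sum_sub_distrib, sum_const, nsmul_eq_mul, ← cnt_eq_dg] at h12
    calc d * a * b / 2 = d * (a * b) - b * (a * d / 2) := by ring
      _ ≤ cnt E A B - b * (a * d / 2) := by linarith
      _ ≤ _ := h12
  have h13 : (d * a * b / 2) ^ (k + 1) / b ^ k ≤ t * a ^ (1 + k) := by
    refine le_trans ?_ (h7.trans (by rw [add_comm k 1]; exact h5))
    refine div_le_div_of_nonneg_right ?_ (by positivity)
    exact pow_le_pow_left₀ (by positivity) h8 _
  have h14 : (d * a * b / 2) ^ (k + 1) / b ^ k = (d / 2) ^ (k + 1) * a ^ (1 + k) * b := by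
    rw [show d * a * b / 2 = d / 2 * a * b by ring, mul_pow, mul_pow, pow_succ b k,
      add_comm 1 k]
    field_simp
  rw [h14] at h13
  have h15 : (d / 2) ^ (k + 1) * b ≤ t := by
    have : (d / 2) ^ (k + 1) * b * a ^ (1 + k) ≤ t * a ^ (1 + k) := by linarith
    exact le_of_mul_le_mul_right this (by positivity)
  have h16 : (2 / d) ^ (1 + k) * ((d / 2) ^ (k + 1) * b) = b := by
    rw [add_comm 1 k, ← mul_assoc, ← mul_pow]
    rw [show 2 / d * (d / 2) = 1 by field_simp]
    simp
  have h17 : b ≤ (2 / d) ^ (1 + k) * t := by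
    rw [← h16]
    exact mul_le_mul_of_nonneg_left h15 (by positivity)
  linarith

open Classical in
/-- The density increment. -/
lemma increment {E D : X → Y → Prop} {W : X → Y → ℝ} {K κ : ℝ} (hK : 0 < K) (hκ : 0 < κ)
    (hW : RC True K W) (h1 : ∀ x y, E x y → 1 ≤ W x y) (h2 : ∀ x y, ¬ D x y → W x y ≤ κ)
    (A : Finset X) (B : Finset Y) (he : 0 < cnt E A B)
    (hsmall : K * cnt D A B ≤ κ * (A.card * B.card)) :
    ∃ A' ⊆ A, ∃ B' ⊆ B, cnt E A B ≤ 4 * K * cnt E A' B' ∧
      (A'.card * B'.card : ℝ) * cnt E A B ≤ 4 * κ * cnt E A' B' * (A.card * B.card) := by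
  set e := cnt E A B with he'
  set v : ℝ := A.card * B.card with hv
  have hv0 : 0 < v := he.trans_le (cnt_le E A B)
  obtain ⟨ι, _, c, P, Q, hc, hcK, hWc⟩ := id hW
  have hc := hc trivial
  set A' : ι → Finset X := fun i => A.filter (fun x => x ∈ P i) with hA'
  set B' : ι → Finset Y := fun i => B.filter (fun y => y ∈ Q i) with hB'
  have hci : ∀ i, cnt E (A' i) (B' i) =
      ∑ x ∈ A, ∑ y ∈ B, (if E x y then 1 else 0) * (ind (P i) x * ind (Q i) y) := by
    intro i
    simp only [cnt, hA', hB', sum_filter]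
    refine sum_congr rfl fun x _ => ?_
    by_cases hx : x ∈ P i
    · rw [if_pos hx]
      refine sum_congr rfl fun y _ => ?_
      rw [ind_of_mem hx]
      by_cases hy : y ∈ Q i
      · rw [if_pos hy, ind_of_mem hy]; ring
      · rw [if_neg hy, ind_of_notMem hy]; ring
    · rw [if_neg hx, ind_of_notMem hx]
      simp
  have hvi : ∀ i, ((A' i).card * (B' i).card : ℝ) =
      ∑ x ∈ A, ∑ y ∈ B, (ind (P i) x * ind (Q i) y) := by
    intro i
    rw [← sum_mul_sum]
    congr 1
    · simp only [hA', card_filter]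
      push_cast
      refine sum_congr rfl fun x _ => ?_
      by_cases hx : x ∈ P i
      · rw [if_pos hx, ind_of_mem hx]
      · rw [if_neg hx, ind_of_notMem hx]
    · simp only [hB', card_filter]
      push_cast
      refine sum_congr rfl fun x _ => ?_
      by_cases hx : x ∈ Q i
      · rw [if_pos hx, ind_of_mem hx]
      · rw [if_neg hx, ind_of_notMem hx]
  have hWE : ∑ i, c i * cnt E (A' i) (B' i) =
      ∑ x ∈ A, ∑ y ∈ B, (if E x y then 1 else 0) * W x y := by
    simp only [hci, mul_sum]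
    rw [sum_comm]
    refine sum_congr rfl fun x _ => ?_
    rw [sum_comm]
    refine sum_congr rfl fun y _ => ?_
    rw [hWc, mul_sum]
    exact sum_congr rfl fun i _ => by ring
  have hWv : ∑ i, c i * ((A' i).card * (B' i).card : ℝ) = ∑ x ∈ A, ∑ y ∈ B, W x y := by
    simp only [hvi, mul_sum]
    rw [sum_comm]
    refine sum_congr rfl fun x _ => ?_
    rw [sum_comm]
    refine sum_congr rfl fun y _ => ?_
    rw [hWc]
  have hWE' : e ≤ ∑ i, c i * cnt E (A' i) (B' i) := by
    rw [hWE, he', cnt]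
    refine sum_le_sum fun x _ => sum_le_sum fun y _ => ?_
    split_ifs with hE
    · rw [one_mul]; exact h1 x y hE
    · rw [zero_mul]
  have hWv' : ∑ i, c i * ((A' i).card * (B' i).card : ℝ) ≤ 2 * κ * v := by
    rw [hWv]
    have h3 : ∀ x y, W x y ≤ κ + K * (if D x y then 1 else 0) := by
      intro x y
      split_ifs with hD
      · have := (le_abs_self _).trans (hW.abs_le x y)
        linarith
      · have := h2 x y hD
        linarith
    calc ∑ x ∈ A, ∑ y ∈ B, W x y ≤ ∑ x ∈ A, ∑ y ∈ B, (κ + K * (if D x y then 1 else 0)) :=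
          sum_le_sum fun x _ => sum_le_sum fun y _ => h3 x y
      _ = κ * v + K * cnt D A B := by
          simp only [sum_add_distrib, sum_const, nsmul_eq_mul, ← mul_sum, cnt, hv]
          ring
      _ ≤ 2 * κ * v := by linarith
  have hex : ∃ i, κ * v * e / K ≤ 4 * κ * cnt E (A' i) (B' i) * v -
      ((A' i).card * (B' i).card : ℝ) * e := by
    by_contra hno
    push Not at hno
    have h4 : ∑ i, c i * (4 * κ * cnt E (A' i) (B' i) * v - ((A' i).card * (B' i).card : ℝ) * e) ≤
        κ * v * e := by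
      calc ∑ i, c i * (4 * κ * cnt E (A' i) (B' i) * v - ((A' i).card * (B' i).card : ℝ) * e)
          ≤ ∑ i, c i * (κ * v * e / K) :=
            sum_le_sum fun i _ => mul_le_mul_of_nonneg_left (hno i).le (hc i)
        _ = (∑ i, c i) * (κ * v * e / K) := by rw [sum_mul]
        _ ≤ K * (κ * v * e / K) := by
            refine mul_le_mul_of_nonneg_right ?_ (by positivity)
            exact (sum_le_sum fun i _ => le_abs_self _).trans hcK
        _ = κ * v * e := by field_simp
    have h5 : ∑ i, c i * (4 * κ * cnt E (A' i) (B' i) * v - ((A' i).card * (B' i).card : ℝ) * e) =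
        4 * κ * v * (∑ i, c i * cnt E (A' i) (B' i)) -
          e * ∑ i, c i * ((A' i).card * (B' i).card : ℝ) := by
      rw [mul_sum, mul_sum, ← sum_sub_distrib]
      exact sum_congr rfl fun i _ => by ring
    rw [h5] at h4
    have h6 : 4 * κ * v * e ≤ 4 * κ * v * (∑ i, c i * cnt E (A' i) (B' i)) :=
      mul_le_mul_of_nonneg_left hWE' (by positivity)
    have h7 : e * ∑ i, c i * ((A' i).card * (B' i).card : ℝ) ≤ e * (2 * κ * v) :=
      mul_le_mul_of_nonneg_left hWv' he.le
    have h8 : 0 < κ * v * e := by positivity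
    nlinarith
  obtain ⟨i, hi⟩ := hex
  refine ⟨A' i, filter_subset _ _, B' i, filter_subset _ _, ?_, ?_⟩
  · have h9 : κ * v * e / K ≤ 4 * κ * cnt E (A' i) (B' i) * v := by
      have : 0 ≤ ((A' i).card * (B' i).card : ℝ) * e := by positivity
      linarith
    rw [div_le_iff₀ hK] at h9
    have h10 : κ * v * e ≤ κ * v * (4 * K * cnt E (A' i) (B' i)) := by linarith
    exact le_of_mul_le_mul_left h10 (by positivity)
  · have : 0 ≤ κ * v * e / K := by positivity
    linarith

/-- The recursion. -/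
lemma pos_recursion {E D : X → Y → Prop} {s t : ℕ} (hfree : NoRect E s t) (hs : 1 ≤ s) (ht : 1 ≤ t)
    {W : X → Y → ℝ} {K κ : ℝ} (hK : 1 ≤ K) (hκ : 0 < κ) (hκ1 : κ ≤ 1 / 8)
    (hW : RC True K W) (h1 : ∀ x y, E x y → 1 ≤ W x y) (h2 : ∀ x y, ¬ D x y → W x y ≤ κ)
    (hD : ∀ A B, cnt D A B ≤ cnt E A B + B.card) {σ : ℝ} (hσ0 : 0 < σ) (hσ1 : σ ≤ 1)
    (hcond : (4 * κ) ^ σ * (4 * K) ^ (1 - σ) ≤ 1) {n : ℝ} (hn : 0 < n) {L : ℝ}
    (hL : 4 * s * K / κ + t * (4 * K / κ) ^ s + 2 * K / κ ≤ L) (A : Finset X) (B : Finset Y)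
    (hA : (A.card : ℝ) ≤ n) (hB : (B.card : ℝ) ≤ n) :
    cnt E A B ≤ (L * n) ^ (1 - σ) * (A.card * B.card : ℝ) ^ σ := by
  have hK0 : 0 < K := by linarith
  have hL0 : 0 < L := by
    refine lt_of_lt_of_le ?_ hL
    positivity
  induction hm : A.card * B.card using Nat.strong_induction_on generalizing A B with
  | _ m ih =>
  set e := cnt E A B with he
  set v : ℝ := A.card * B.card with hv
  have hv' : v = ((m : ℕ) : ℝ) := by rw [hv, ← hm]; push_cast; ring
  rcases eq_or_lt_of_le (cnt_nonneg E A B) with h0 | h0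
  · rw [he, ← h0]; positivity
  have hv0 : 0 < v := h0.trans_le (cnt_le E A B)
  have hA0 : (0 : ℝ) < A.card := by
    by_contra hno
    have : (A.card : ℝ) = 0 := le_antisymm (not_lt.mp hno) (Nat.cast_nonneg _)
    rw [hv, this, zero_mul] at hv0
    exact lt_irrefl _ hv0
  have hB0 : (0 : ℝ) < B.card := by
    by_contra hno
    have : (B.card : ℝ) = 0 := le_antisymm (not_lt.mp hno) (Nat.cast_nonneg _)
    rw [hv, this, mul_zero] at hv0
    exact lt_irrefl _ hv0
  by_cases hsmall : K * cnt D A B ≤ κ * v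
  · -- density increment
    obtain ⟨A', hA', B', hB', h3, h4⟩ := increment hK0 hκ hW h1 h2 A B h0 hsmall
    set e1 := cnt E A' B' with he1
    set v1 : ℝ := A'.card * B'.card with hv1
    have he1pos : 0 < e1 := by
      by_contra hno
      have : e1 = 0 := le_antisymm (not_lt.mp hno) (cnt_nonneg _ _ _)
      rw [this, mul_zero] at h3
      linarith
    have he1le : e1 ≤ e := by
      simp only [he1, he, cnt]
      refine (sum_le_sum_of_subset_of_nonneg hA' fun x _ _ =>
        sum_nonneg fun y _ => by split_ifs <;> norm_num).trans (sum_le_sum fun x _ =>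
        sum_le_sum_of_subset_of_nonneg hB' fun y _ _ => by split_ifs <;> norm_num)
    set μ : ℝ := e1 / e with hμ
    have hμ0 : 0 < μ := div_pos he1pos h0
    have hμ1 : μ ≤ 1 := (div_le_one h0).mpr he1le
    have hμK : 1 / (4 * K) ≤ μ := by
      rw [hμ, div_le_div_iff₀ (by positivity) h0]
      linarith
    have hv1le : v1 ≤ 4 * κ * μ * v := by
      have he0 : e ≠ 0 := h0.ne'
      have : v1 * e ≤ (4 * κ * μ * v) * e := by
        calc v1 * e ≤ 4 * κ * e1 * v := h4
          _ = (4 * κ * μ * v) * e := by rw [hμ]; field_simp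
      exact le_of_mul_le_mul_right this h0
    have hlt : A'.card * B'.card < m := by
      have h5 : v1 < v := by
        refine lt_of_le_of_lt hv1le ?_
        have h6 : 4 * κ * μ ≤ 1 / 2 := by
          calc 4 * κ * μ ≤ 4 * (1 / 8) * 1 := by gcongr
            _ = 1 / 2 := by norm_num
        calc 4 * κ * μ * v ≤ 1 / 2 * v := mul_le_mul_of_nonneg_right h6 hv0.le
          _ < v := by linarith
      rw [hv', hv1] at h5
      exact_mod_cast h5
    have h7 := ih _ hlt A' B' ((Nat.cast_le.mpr (card_le_card hA')).trans hA)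
      ((Nat.cast_le.mpr (card_le_card hB')).trans hB) rfl
    have hv10 : 0 ≤ v1 := by positivity
    have he0 : e ≠ 0 := h0.ne'
    have he10 : e1 ≠ 0 := he1pos.ne'
    calc e = e1 / μ := by rw [hμ]; field_simp
      _ ≤ ((L * n) ^ (1 - σ) * v1 ^ σ) / μ := div_le_div_of_nonneg_right h7 hμ0.le
      _ ≤ ((L * n) ^ (1 - σ) * (4 * κ * μ * v) ^ σ) / μ := by
          gcongr
      _ = (L * n) ^ (1 - σ) * v ^ σ * ((4 * κ) ^ σ * (1 / μ) ^ (1 - σ)) := by
          rw [Real.mul_rpow (by positivity) hv0.le, Real.mul_rpow (by positivity) hμ0.le,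
            one_div, Real.inv_rpow hμ0.le, Real.rpow_sub hμ0, Real.rpow_one]
          field_simp
      _ ≤ (L * n) ^ (1 - σ) * v ^ σ * ((4 * κ) ^ σ * (4 * K) ^ (1 - σ)) := by
          have h8 : 1 / μ ≤ 4 * K := by
            rw [div_le_iff₀ hμ0]
            rw [div_le_iff₀ (by positivity)] at hμK
            linarith
          have h9 : (1 / μ) ^ (1 - σ) ≤ (4 * K) ^ (1 - σ) :=
            Real.rpow_le_rpow (by positivity) h8 (by linarith)
          gcongr
      _ ≤ (L * n) ^ (1 - σ) * v ^ σ * 1 := by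
          gcongr
      _ = _ := by rw [mul_one]
  · -- thin rectangles
    push Not at hsmall
    have hthin : v ≤ L * n := by
      have h3 : κ * v < K * (e + B.card) :=
        hsmall.trans_le (mul_le_mul_of_nonneg_left (hD A B) hK0.le)
      have h4 : κ / (2 * K) * v < e ∨ κ / (2 * K) * v < B.card := by
        by_contra hno
        push Not at hno
        obtain ⟨h5, h6⟩ := hno
        have h7 : e + B.card ≤ κ / K * v := by
          calc e + B.card ≤ κ / (2 * K) * v + κ / (2 * K) * v := add_le_add h5 h6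
            _ = κ / K * v := by field_simp; ring
        have h8 : K * (e + B.card) ≤ κ * v := by
          calc K * (e + B.card) ≤ K * (κ / K * v) := mul_le_mul_of_nonneg_left h7 hK0.le
            _ = κ * v := by field_simp
        linarith
      have hd : 0 < κ / (2 * K) := by positivity
      rcases h4 with h5 | h5
      · rcases thin_of_dense hfree hs ht hd A B h5 with h6 | h6
        · have h7 : (A.card : ℝ) ≤ L := by
            have h8 : 2 * (s : ℝ) / (κ / (2 * K)) = 4 * s * K / κ := by
              field_simp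
              norm_num
            rw [h8] at h6
            have h9 : (0 : ℝ) ≤ t * (4 * K / κ) ^ s := by positivity
            have h10 : (0 : ℝ) ≤ 2 * K / κ := by positivity
            linarith
          rw [hv]
          exact mul_le_mul h7 hB (Nat.cast_nonneg _) hL0.le
        · have h7 : (B.card : ℝ) ≤ L := by
            have h8 : 2 / (κ / (2 * K)) = 4 * K / κ := by
              field_simp
              norm_num
            rw [h8] at h6
            have h9 : (0 : ℝ) ≤ 4 * s * K / κ := by positivity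
            have h10 : (0 : ℝ) ≤ 2 * K / κ := by positivity
            linarith
          rw [hv, mul_comm L n]
          exact mul_le_mul hA h7 (Nat.cast_nonneg _) hn.le
      · have h6 : (A.card : ℝ) ≤ 2 * K / κ := by
          rw [le_div_iff₀ hκ]
          have h7 : κ / (2 * K) * A.card * B.card < 1 * B.card := by
            rw [hv] at h5; linarith
          have h8 := lt_of_mul_lt_mul_right h7 (Nat.cast_nonneg _)
          rw [div_mul_eq_mul_div, div_lt_one (by positivity)] at h8
          linarith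
        have h7 : (A.card : ℝ) ≤ L := by
          have h9 : (0 : ℝ) ≤ t * (4 * K / κ) ^ s := by positivity
          have h10 : (0 : ℝ) ≤ 4 * s * K / κ := by positivity
          linarith
        rw [hv]
        exact mul_le_mul h7 hB (Nat.cast_nonneg _) hL0.le
    calc e ≤ v := cnt_le E A B
      _ = v ^ (1 - σ) * v ^ σ := by
          rw [← Real.rpow_add hv0]; simp
      _ ≤ (L * n) ^ (1 - σ) * v ^ σ := by
          have h9 : v ^ (1 - σ) ≤ (L * n) ^ (1 - σ) :=
            Real.rpow_le_rpow hv0.le hthin (by linarith)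
          gcongr

end Pool.Agent.N471.CC
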